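import Mathlib
import Pool.Agent.R499.MultiSum

/-!
# Sums of powers of multinomial coefficients modulo `m n`

For all `m ≥ 1` and `n, r ≥ 0` the number
`S(m,n,r) = ∑_{k<n} (-1)^{rk} ((m+1) k + m) M_{m,k}^{(r)}` is divisible by `m n`.

Idea of the proof.  Let `q(n,k) = (-1)^k C(n-1,k)`.  The exact identity
`∑_{k<n} C(n-1,k)^r ((m+1)k+m) M_{m,k} = m n M_{m+1,n-1}` says that the sums twisted by `q(n,k)^r`
are divisible by `m n`.  For a prime `p` and `n = p n'` one has `q(n, p j + i) ≡ q(n', j)` modulo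
every power of `p` dividing `n`, and an induction on that power removes the twist.
-/

namespace Pool.Agent.Results.MP_cbe697_nt.WeightedSumDivisible

open Finset

/-- `M_{m,n}^{(r)}`: the sum, over all tuples `k : Fin m → ℕ` with `k_1 + ... + k_m = n`, of the
`r`-th powers of the multinomial coefficients `n! / (k_1! ... k_m!)`. -/
def M (m n r : ℕ) : ℕ :=
  ∑ k ∈ Finset.piAntidiag (Finset.univ : Finset (Fin m)) n,
    (Nat.multinomial Finset.univ k) ^ r

/-- For all `m ≥ 1`, `n ≥ 0` and `r ≥ 0`, the product `m n` divides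
`∑_{k=0}^{n-1} (-1)^{rk} ((m+1) k + m) M_{m,k}^{(r)}`. -/
theorem result (m n r : ℕ) (hm : 1 ≤ m) :
    ((m : ℤ) * n) ∣ ∑ k ∈ range n,
      (-1) ^ (r * k) * (((m : ℤ) + 1) * k + m) * (M m k r : ℤ) :=
  Pool.Agent.R499.MultiSum.main m n r hm

end Pool.Agent.Results.MP_cbe697_nt.WeightedSumDivisible
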